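import Pool.Agent.Helper18.PL.Lin

/-!
# The Hirzebruch type inequality for pseudolines
-/

namespace Pool.Agent.Helper18.PL

open Finset

namespace FlagSystem

variable {d : ℕ} {A : FlagSystem d}

open Classical in
theorem t_eq [Fintype A.Vertex] (k : ℕ) :
    A.t k = (univ.filter fun v : A.Vertex => A.mult v = k).card := by
  rw [t, Nat.card_eq_fintype_card, Fintype.card_subtype]

theorem exists_of_t_pos [Fintype A.Vertex] {k : ℕ} (hk : 0 < A.t k) : ∃ v, A.mult v = k := by
  classical
  rw [t_eq, card_pos] at hk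
  obtain ⟨v, hv⟩ := hk
  exact ⟨v, (mem_filter.1 hv).2⟩

namespace IsPseudolineArrangement

variable (h : A.IsPseudolineArrangement)

include h

/-- Sums over the vertices, arranged by multiplicity. -/
theorem sum_mult [Fintype A.Vertex] (g : ℕ → ℤ) (K : ℕ) (hK : ∀ v, A.mult v ≤ K) :
    ∑ v : A.Vertex, g (A.mult v) = ∑ k ∈ Icc 2 K, (A.t k : ℤ) * g k := by
  classical
  have h1 : ∀ v ∈ (univ : Finset A.Vertex), A.mult v ∈ Icc 2 K := fun v _ =>
    mem_Icc.2 ⟨h.two_le v, hK v⟩
  rw [← sum_fiberwise_of_maps_to h1]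
  apply sum_congr rfl
  intro k _
  rw [t_eq]
  rw [sum_congr rfl (g := fun _ => g k) (fun v hv => by rw [(mem_filter.1 hv).2]), sum_const,
    nsmul_eq_mul]

theorem sum_mult5 [Fintype A.Vertex] (g : ℕ → ℤ) (hK : ∀ v, A.mult v ≤ 5) :
    ∑ v : A.Vertex, g (A.mult v) =
      A.t 2 * g 2 + A.t 3 * g 3 + A.t 4 * g 4 + A.t 5 * g 5 := by
  rw [h.sum_mult g 5 hK]
  have : Icc 2 5 = {2, 3, 4, 5} := by decide
  rw [this]
  simp [sum_insert]
  ring

variable (hmax : ∀ v, A.mult v + 2 ≤ d)

include hmax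

theorem facts [Fintype A.Vertex] :
    (∑ v : A.Vertex, (A.mult v : ℤ)) + 3 ≤ 3 * Fintype.card A.Vertex ∧
    6 * (A.t 2 : ℤ) + 9 * (∑ v : A.Vertex, (A.mult v : ℤ)) + 30 ≤
      30 * Fintype.card A.Vertex := by
  obtain ⟨h1, h2⟩ := h.euler_ineq hmax
  have h1' : ((∑ v : A.Vertex, A.mult v : ℕ) : ℤ) + 3 ≤ 3 * Fintype.card A.Vertex := by
    exact_mod_cast h1
  have h2' : 6 * (A.t 2 : ℤ) + 10 * ((∑ v : A.Vertex, A.mult v : ℕ) : ℤ) + 30 ≤
      ((∑ v : A.Vertex, A.mult v : ℕ) : ℤ) + 30 * Fintype.card A.Vertex := by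
    exact_mod_cast h2
  rw [Nat.cast_sum] at h1' h2'
  constructor <;> linarith

/-- If a vertex of multiplicity at least `6` exists, the inequality is strict. -/
theorem big [Fintype A.Vertex] (P : A.Vertex) (hP : 6 ≤ A.mult P) :
    8 * (d : ℤ) < ∑ v : A.Vertex, W8 (A.mult v) := by
  classical
  have hd := hmax P
  have hle : A.mult P ≤ d := by omega
  obtain ⟨b, hb⟩ := Nat.exists_eq_add_of_le hle
  have hb2 : 2 ≤ b := by omega
  have hdz : (d : ℤ) = A.mult P + b := by exact_mod_cast hb
  have ha : (6 : ℤ) ≤ A.mult P := by exact_mod_cast hP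
  by_cases hb7 : b ≤ 7
  · have h1 := h.pencil_W8 P
    have hW : W8 (A.mult P) = 8 * (4 - A.mult P) := by
      unfold W8
      rw [if_neg (by omega), if_neg (by omega)]
    have e1 : (d : ℤ) - A.mult P = b := by rw [hdz]; ring
    rw [hW, e1] at h1
    rw [hdz]
    interval_cases b <;> push_cast at h1 ⊢ <;> linarith
  · -- many lines outside the pencil
    have h1 := h.pencil_sub_one P
    obtain ⟨h2, h3⟩ := h.facts hmax
    set f1 := ∑ v : A.Vertex, (A.mult v : ℤ) with hf1
    have e0 : ∑ v : A.Vertex, ((A.mult v : ℤ) - 1) = f1 - Fintype.card A.Vertex := by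
      rw [sum_sub_distrib, sum_const, card_univ, nsmul_eq_mul, mul_one]
    rw [e0] at h1
    have hb8 : (8 : ℤ) ≤ b := by
      have : 8 ≤ b := by omega
      exact_mod_cast this
    -- split the vertices: multiplicity two, three, at least four
    set t3 := (univ.filter fun v : A.Vertex => A.mult v = 3).card with ht3
    set N4 := (univ.filter fun v : A.Vertex => 4 ≤ A.mult v).card with hN4
    have e1 : (∑ v : A.Vertex, W8 (A.mult v)) =
        24 * Fintype.card A.Vertex - 8 * f1 + 8 * N4 + 6 * t3 := by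
      have e2 : ∀ v : A.Vertex, W8 (A.mult v) = 24 - 8 * (A.mult v : ℤ) +
          8 * (if 4 ≤ A.mult v then 1 else 0) + 6 * (if A.mult v = 3 then 1 else 0) := by
        intro v
        have := h.two_le v
        unfold W8
        split_ifs with a1 a2 a3 a4 a5 a6 a7
        all_goals omega
      rw [sum_congr rfl fun v _ => e2 v, sum_add_distrib, sum_add_distrib, sum_sub_distrib,
        ← mul_sum, ← mul_sum, ← mul_sum, sum_const, card_univ, nsmul_eq_mul, sum_boole, sum_boole]
      ring
    have e3 : (Fintype.card A.Vertex : ℤ) = A.t 2 + t3 + N4 := by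
      have e4 : ∀ v : A.Vertex, (1 : ℤ) = (if A.mult v = 2 then 1 else 0) +
          (if A.mult v = 3 then 1 else 0) + (if 4 ≤ A.mult v then 1 else 0) := by
        intro v
        have := h.two_le v
        split_ifs <;> omega
      have e5 : (Fintype.card A.Vertex : ℤ) = ∑ v : A.Vertex, 1 := by simp
      rw [e5, sum_congr rfl fun v _ => e4 v, sum_add_distrib, sum_add_distrib, sum_boole,
        sum_boole, sum_boole, t_eq]
    have hN : (1 : ℤ) ≤ N4 := by
      have : 0 < N4 := card_pos.2 ⟨P, mem_filter.2 ⟨mem_univ _, by omega⟩⟩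
      exact_mod_cast this
    have hprod : 6 * (d : ℤ) - 30 - 1 ≤ (A.mult P : ℤ) - 1 + A.mult P * (d - A.mult P) := by
      have := mul_nonneg (sub_nonneg.2 ha) (by linarith : (0 : ℤ) ≤ d - 5 - A.mult P)
      nlinarith
    have hd14 : (14 : ℤ) ≤ d := by rw [hdz]; linarith
    rw [e1]
    linarith

/-- **The Hirzebruch type inequality** `8 d ≤ ∑ W8`, with the cases of equality. -/
theorem main_ineq [Fintype A.Vertex] :
    8 * (d : ℤ) ≤ ∑ v : A.Vertex, W8 (A.mult v) ∧
    (8 * (d : ℤ) = ∑ v : A.Vertex, W8 (A.mult v) →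
      (∀ v, A.mult v ≤ 5) ∧ ((d = 6 ∧ A.t 2 = 3 ∧ A.t 3 = 4 ∧ A.t 4 = 0 ∧ A.t 5 = 0) ∨
        (d = 9 ∧ A.t 2 = 6 ∧ A.t 3 = 4 ∧ A.t 4 = 3 ∧ A.t 5 = 0))) := by
  by_cases hbig : ∃ P, 6 ≤ A.mult P
  · obtain ⟨P, hP⟩ := hbig
    have := h.big hmax P hP
    exact ⟨this.le, fun e => absurd e this.ne⟩
  have h5 : ∀ v, A.mult v ≤ 5 := by
    intro v
    by_contra hv
    exact hbig ⟨v, by omega⟩
  obtain ⟨F1, F2⟩ := h.facts hmax
  have F3 := h.sum_pairs
  have s1 := h.sum_mult5 (fun k => (k : ℤ)) h5
  have s0 := h.sum_mult5 (fun _ => (1 : ℤ)) h5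
  have s2 := h.sum_mult5 (fun k => (k : ℤ) * (k - 1)) h5
  have sW := h.sum_mult5 W8 h5
  simp only [sum_const, card_univ, nsmul_eq_mul, mul_one] at s0
  push_cast at s1 s2
  have w2 : W8 2 = 8 := by norm_num [W8]
  have w3 : W8 3 = 6 := by norm_num [W8]
  have w4 : W8 4 = 0 := by norm_num [W8]
  have w5 : W8 5 = -8 := by norm_num [W8]
  rw [w2, w3, w4, w5, mul_zero, add_zero] at sW
  rw [s1, s0] at F1 F2
  rw [s2] at F3
  rw [sW]
  have hpos : 0 < Fintype.card A.Vertex := by
    by_contra hc
    have hc0 : (Fintype.card A.Vertex : ℤ) = 0 := by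
      have : Fintype.card A.Vertex = 0 := by omega
      exact_mod_cast this
    rw [s0] at hc0
    have p2 : (0 : ℤ) ≤ A.t 2 := Int.natCast_nonneg _
    have p3 : (0 : ℤ) ≤ A.t 3 := Int.natCast_nonneg _
    have p4 : (0 : ℤ) ≤ A.t 4 := Int.natCast_nonneg _
    have p5 : (0 : ℤ) ≤ A.t 5 := Int.natCast_nonneg _
    linarith
  have hd4 : 4 ≤ d := by
    obtain ⟨v⟩ := Fintype.card_pos_iff.1 hpos
    have := hmax v
    have := h.two_le v
    omega
  generalize hT2 : A.t 2 = T2 at *
  generalize hT3 : A.t 3 = T3 at *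
  by_cases c5 : 0 < A.t 5
  · obtain ⟨P, hP⟩ := exists_of_t_pos c5
    have hd7 : 7 ≤ d := by have := hmax P; omega
    have q1 := h.pencil_W8 P
    have q2 := h.pencil_sub_one P
    rw [sum_sub_distrib, sum_const, card_univ, nsmul_eq_mul, mul_one, s1, s0, hP] at q2
    rw [sW, hP] at q1
    rw [w5] at q1
    push_cast at q1 q2
    generalize hT4 : A.t 4 = T4 at *
    generalize hT5 : A.t 5 = T5 at *
    have hstrict : 8 * (d : ℤ) < (T2 : ℤ) * 8 + T3 * 6 + T5 * -8 := by
      by_cases hd : 13 ≤ d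
      · have hd' : (13 : ℤ) ≤ d := by exact_mod_cast hd
        have p4 : (0 : ℤ) ≤ T4 := Int.natCast_nonneg _
        have k1 : 15 * ((T2 : ℤ) * 8 + T3 * 6 + T5 * -8) ≥ 7 * ((d : ℤ) * (d - 1)) + 510 := by
          linarith
        have k2 : 0 ≤ ((d : ℤ) - 13) * (7 * d - 36) :=
          mul_nonneg (by linarith) (by linarith)
        have k3 : 7 * ((d : ℤ) * (d - 1)) + 510 = ((d : ℤ) - 13) * (7 * d - 36) + 120 * d + 42 := by
          ring
        linarith
      · have hd12 : d ≤ 12 := by omega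
        interval_cases d <;> push_cast at * <;> omega
    refine ⟨by linarith, fun e => ?_⟩
    exfalso
    linarith
  · have c5' : A.t 5 = 0 := by omega
    rw [c5'] at s0 s1 sW F1 F2 F3
    by_cases c4 : 0 < A.t 4
    · obtain ⟨P, hP⟩ := exists_of_t_pos c4
      have hd6 : 6 ≤ d := by have := hmax P; omega
      have q1 := h.pencil_W8 P
      rw [sW, hP] at q1
      rw [w4] at q1
      push_cast at q1
      rw [c5']
      generalize hT4 : A.t 4 = T4 at *
      by_cases hd : 9 ≤ d
      · have hd' : (9 : ℤ) ≤ d := by exact_mod_cast hd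
        have k1 : 7 * ((T2 : ℤ) * 8 + T3 * 6) ≥ 4 * ((d : ℤ) * (d - 1)) + 216 := by
          push_cast at F1 F2 F3
          linarith
        have k3 : 4 * ((d : ℤ) * (d - 1)) + 216 = 4 * (((d : ℤ) - 9) * (d - 6)) + 56 * d := by
          ring
        push_cast
        constructor
        · have k2 : 0 ≤ ((d : ℤ) - 9) * (d - 6) := mul_nonneg (by linarith) (by linarith)
          linarith
        · intro e
          refine ⟨h5, Or.inr ?_⟩
          have hd9 : d = 9 := by
            by_contra hne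
            have h10 : (10 : ℤ) ≤ d := by
              have : 10 ≤ d := by omega
              exact_mod_cast this
            have k2 : 0 < ((d : ℤ) - 9) * (d - 6) := mul_pos (by linarith) (by linarith)
            linarith
          subst hd9
          push_cast at e F1 F2 F3
          exact ⟨rfl, by omega, by omega, by omega, trivial⟩
      · have hd8 : d ≤ 8 := by omega
        have hstrict : 8 * (d : ℤ) < (T2 : ℤ) * 8 + T3 * 6 + ((0 : ℕ) : ℤ) * -8 := by
          interval_cases d <;> push_cast at * <;> omega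
        refine ⟨by linarith, fun e => ?_⟩
        exfalso
        linarith
    · have c4' : A.t 4 = 0 := by omega
      rw [c4'] at s0 s1 F1 F2 F3
      rw [c5', c4']
      push_cast at F1 F2 F3 ⊢
      by_cases hd : 6 ≤ d
      · have hd' : (6 : ℤ) ≤ d := by exact_mod_cast hd
        have k3 : (d : ℤ) * (d - 1) + 18 = ((d : ℤ) - 6) * (d - 3) + 8 * d := by ring
        constructor
        · have k2 : 0 ≤ ((d : ℤ) - 6) * (d - 3) := mul_nonneg (by linarith) (by linarith)
          linarith
        · intro e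
          refine ⟨h5, Or.inl ?_⟩
          have hd6 : d = 6 := by
            by_contra hne
            have h7 : (7 : ℤ) ≤ d := by
              have : 7 ≤ d := by omega
              exact_mod_cast this
            have k2 : 0 < ((d : ℤ) - 6) * (d - 3) := mul_pos (by linarith) (by linarith)
            linarith
          subst hd6
          push_cast at e F1 F2 F3
          exact ⟨rfl, by omega, by omega, trivial, trivial⟩
      · have hstrict : 8 * (d : ℤ) < (T2 : ℤ) * 8 + T3 * 6 := by
          have hd5 : d ≤ 5 := by omega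
          interval_cases d <;> push_cast at * <;> omega
        refine ⟨by linarith, fun e => ?_⟩
        exfalso
        linarith

end IsPseudolineArrangement

end FlagSystem

end Pool.Agent.Helper18.PL
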