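import Pool.Agent.Helper18.PL.Defs

/-!
# Basic facts on the flags around a vertex
-/

namespace Pool.Agent.Helper18.PL

namespace FlagSystem

variable {d : ℕ} {A : FlagSystem d}

theorem vertex_s1 (φ : A.Flag) : A.vertex (A.s1 φ) = A.vertex φ := by
  symm
  apply Quot.sound
  exact Or.inl rfl

theorem vertex_s2 (φ : A.Flag) : A.vertex (A.s2 φ) = A.vertex φ := by
  symm
  apply Quot.sound
  exact Or.inr rfl

theorem vertex_turn (φ : A.Flag) : A.vertex (A.turn φ) = A.vertex φ := by
  rw [turn, vertex_s1, vertex_s2]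

theorem vertex_iter (i : ℕ) (φ : A.Flag) : A.vertex (A.turn^[i] φ) = A.vertex φ := by
  induction i generalizing φ with
  | zero => rfl
  | succ n ih => rw [Function.iterate_succ_apply, ih, vertex_turn]

theorem vertex_ahead (φ : A.Flag) : A.vertex (A.ahead φ) = A.vertex φ := vertex_iter _ _

theorem on_vertex (φ : A.Flag) : A.On (A.vertex φ) (A.line φ) := ⟨φ, rfl, rfl⟩

open Classical in
theorem mult_eq_card (v : A.Vertex) :
    A.mult v = ((Finset.univ : Finset (Fin d)).filter fun x => A.On v x).card := by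
  unfold mult
  rw [Nat.card_eq_fintype_card, Fintype.card_subtype]

namespace IsPseudolineArrangement

variable (h : A.IsPseudolineArrangement)
include h

theorem period (φ : A.Flag) : A.turn^[2 * A.mult (A.vertex φ)] φ = φ :=
  (h.around φ _).2 dvd_rfl

theorem iter_mod (φ : A.Flag) (q r : ℕ) :
    A.turn^[r + 2 * A.mult (A.vertex φ) * q] φ = A.turn^[r] φ := by
  rw [Function.iterate_add_apply, (h.around φ _).2 (Dvd.intro _ rfl)]

/-- The flags at the vertex of `φ` are those obtained by turning, up to `s2`. -/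
theorem exists_turn {φ ψ : A.Flag} (e : A.vertex φ = A.vertex ψ) :
    ∃ i, ψ = A.turn^[i] φ ∨ ψ = A.s2 (A.turn^[i] φ) := by
  have h2 : ∀ a : A.Flag, (∃ i, a = A.turn^[i] φ ∨ a = A.s2 (A.turn^[i] φ)) →
      ∃ i, A.s2 a = A.turn^[i] φ ∨ A.s2 a = A.s2 (A.turn^[i] φ) := by
    rintro a ⟨i, rfl | rfl⟩
    · exact ⟨i, Or.inr rfl⟩
    · exact ⟨i, Or.inl (h.s2_s2 _)⟩
  have h1 : ∀ a : A.Flag, (∃ i, a = A.turn^[i] φ ∨ a = A.s2 (A.turn^[i] φ)) →
      ∃ i, A.s1 a = A.turn^[i] φ ∨ A.s1 a = A.s2 (A.turn^[i] φ) := by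
    rintro a ⟨i, rfl | rfl⟩
    · have hp := h.period (A.turn^[i] φ)
      obtain ⟨m, hm⟩ : ∃ m, 2 * A.mult (A.vertex (A.turn^[i] φ)) = m + 1 := by
        have := h.two_le (A.vertex (A.turn^[i] φ))
        exact ⟨2 * A.mult (A.vertex (A.turn^[i] φ)) - 1, by omega⟩
      rw [hm, Function.iterate_succ_apply'] at hp
      refine ⟨m + i, Or.inr ?_⟩
      rw [Function.iterate_add_apply]
      conv_lhs => rw [← hp]
      rw [turn, h.s1_s1]
    · exact ⟨i + 1, Or.inl (by rw [Function.iterate_succ_apply']; rfl)⟩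
  have key : ∀ a b : A.Flag, Relation.EqvGen (fun φ ψ : A.Flag => ψ = A.s1 φ ∨ ψ = A.s2 φ) a b →
      ((∃ i, a = A.turn^[i] φ ∨ a = A.s2 (A.turn^[i] φ)) ↔
        ∃ i, b = A.turn^[i] φ ∨ b = A.s2 (A.turn^[i] φ)) := by
    intro a b hab
    induction hab with
    | rel a b hr =>
      rcases hr with rfl | rfl
      · refine ⟨h1 a, fun hb => ?_⟩
        have := h1 _ hb
        rwa [h.s1_s1] at this
      · refine ⟨h2 a, fun hb => ?_⟩
        have := h2 _ hb
        rwa [h.s2_s2] at this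
    | refl a => exact Iff.rfl
    | symm a b _ ih => exact ih.symm
    | trans a b c _ _ ih1 ih2 => exact ih1.trans ih2
  exact (key φ ψ (Quot.eqvGen_exact e)).1 ⟨0, Or.inl rfl⟩

/-- A rotation does not agree anywhere with `s2`. -/
theorem iter_ne_s2 (m : ℕ) : ∀ φ : A.Flag, A.turn^[m] φ ≠ A.s2 φ := by
  induction m using Nat.twoStepInduction with
  | zero => exact fun φ e => h.s2_ne φ e.symm
  | one =>
    intro φ e
    exact h.s1_ne (A.s2 φ) e
  | more n ih _ =>
    intro φ e
    rw [Function.iterate_succ_apply', Function.iterate_succ_apply] at e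
    apply ih (A.turn φ)
    have h1 := congrArg A.s1 e
    rw [turn, h.s1_s1] at h1
    have h2 := congrArg A.s2 h1
    rw [h.s2_s2] at h2
    rw [h2]
    rfl

theorem line_iter_mult (φ : A.Flag) : A.line (A.ahead φ) = A.line φ :=
  (h.straight φ _).2 dvd_rfl

theorem ahead_ne (φ : A.Flag) : A.ahead φ ≠ φ := by
  intro e
  have h1 := (h.around φ _).1 e
  have h2 := h.two_le (A.vertex φ)
  have := Nat.le_of_dvd (by omega) h1
  omega

theorem ahead_ne_s2 (φ : A.Flag) : A.ahead φ ≠ A.s2 φ := h.iter_ne_s2 _ _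

/-- The flags at a vertex on a given line: there are only four. -/
theorem four {φ ψ : A.Flag} (e : A.vertex ψ = A.vertex φ) (l : A.line ψ = A.line φ) :
    ψ = φ ∨ ψ = A.s2 φ ∨ ψ = A.ahead φ ∨ ψ = A.s2 (A.ahead φ) := by
  obtain ⟨i, hi⟩ := h.exists_turn e.symm
  have hl : A.line (A.turn^[i] φ) = A.line φ := by
    rcases hi with rfl | rfl
    · exact l
    · rwa [h.line_s2] at l
  obtain ⟨q, rfl⟩ := (h.straight φ i).1 hl
  have hq : A.turn^[A.mult (A.vertex φ) * q] φ = φ ∨
      A.turn^[A.mult (A.vertex φ) * q] φ = A.ahead φ := by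
    rcases Nat.even_or_odd' q with ⟨c, rfl | rfl⟩
    · left
      have h0 := h.iter_mod φ c 0
      have e0 : 0 + 2 * A.mult (A.vertex φ) * c = A.mult (A.vertex φ) * (2 * c) := by ring
      rw [e0] at h0
      exact h0
    · right
      have h0 := h.iter_mod φ c (A.mult (A.vertex φ))
      have e0 : A.mult (A.vertex φ) + 2 * A.mult (A.vertex φ) * c =
          A.mult (A.vertex φ) * (2 * c + 1) := by ring
      rw [e0] at h0
      exact h0
  rcases hi with rfl | rfl <;> rcases hq with hq | hq <;> rw [hq] <;> simp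

/-- Neighbouring edges around a vertex are on different lines. -/
theorem line_s1_ne (φ : A.Flag) : A.line (A.s1 φ) ≠ A.line φ := by
  intro e
  have h1 := h.straight (A.s2 φ) 1
  rw [Function.iterate_one, turn, h.s2_s2, h.line_s2] at h1
  have h2 := h1.1 e
  have h3 := h.two_le (A.vertex (A.s2 φ))
  have := Nat.le_of_dvd one_pos h2
  omega

theorem on_s0 (φ : A.Flag) : A.On (A.vertex (A.s0 φ)) (A.line φ) := ⟨A.s0 φ, rfl, h.line_s0 φ⟩

theorem meet_unique {x y : Fin d} (hxy : x ≠ y) {v w : A.Vertex} (h1 : A.On v x) (h2 : A.On v y)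
    (h3 : A.On w x) (h4 : A.On w y) : v = w :=
  (h.meet x y hxy).unique ⟨h1, h2⟩ ⟨h3, h4⟩

/-- If `v` is on all lines except possibly `l`, then at least `d - 1` lines pass through `v`. -/
theorem le_mult (v : A.Vertex) (l : Fin d) (hv : ∀ x, x ≠ l → A.On v x) :
    d ≤ A.mult v + 1 := by
  classical
  rw [mult_eq_card]
  have h1 : (Finset.univ.erase l) ⊆ (Finset.univ : Finset (Fin d)).filter fun x => A.On v x := by
    intro x hx
    rw [Finset.mem_erase] at hx
    rw [Finset.mem_filter]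
    exact ⟨Finset.mem_univ _, hv x hx.1⟩
  have h2 := Finset.card_le_card h1
  rw [Finset.card_erase_of_mem (Finset.mem_univ _), Finset.card_univ, Fintype.card_fin] at h2
  omega

theorem le_mult_iff (v : A.Vertex) (hv : ∀ x, A.On v x) (hd : 0 < d) : d ≤ A.mult v + 1 :=
  h.le_mult v ⟨0, hd⟩ fun x _ => hv x

end IsPseudolineArrangement

end FlagSystem

end Pool.Agent.Helper18.PL
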