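import Pool.Agent.Helper18.PL.Faces

/-!
# Counting flags
-/

namespace Pool.Agent.Helper18.PL

open Finset

/-- Points of an orbit of two involutions. -/
theorem quot_closed {α : Type} (a b : α → α) (ha : ∀ x, a (a x) = x) (hb : ∀ x, b (b x) = x)
    (S : α → Prop) (hSa : ∀ x, S x → S (a x)) (hSb : ∀ x, S x → S (b x)) {x y : α}
    (e : Quot.mk (fun φ ψ : α => ψ = a φ ∨ ψ = b φ) x = Quot.mk (fun φ ψ : α => ψ = a φ ∨ ψ = b φ) y)
    (hx : S x) : S y := by
  have key : ∀ u v : α, Relation.EqvGen (fun φ ψ : α => ψ = a φ ∨ ψ = b φ) u v → (S u ↔ S v) := by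
    intro u v huv
    induction huv with
    | rel u v hr =>
      rcases hr with rfl | rfl
      · exact ⟨hSa u, fun hv => by have := hSa _ hv; rwa [ha] at this⟩
      · exact ⟨hSb u, fun hv => by have := hSb _ hv; rwa [hb] at this⟩
    | refl u => exact Iff.rfl
    | symm u v _ ih => exact ih.symm
    | trans u v w _ _ ih1 ih2 => exact ih1.trans ih2
  exact (key x y (Quot.eqvGen_exact e)).1 hx

/-- A rotation does not agree anywhere with a reflection. -/
theorem iter_ne {α : Type} (p q : α → α) (hp : ∀ x, p (p x) = x) (hq : ∀ x, q (q x) = x)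
    (fp : ∀ x, p x ≠ x) (fq : ∀ x, q x ≠ x) (m : ℕ) :
    ∀ x : α, (fun y => p (q y))^[m] x ≠ q x := by
  induction m using Nat.twoStepInduction with
  | zero => exact fun x e => fq x e.symm
  | one =>
    intro x e
    exact fp (q x) e
  | more n ih _ =>
    intro x e
    rw [Function.iterate_succ_apply', Function.iterate_succ_apply] at e
    apply ih (p (q x))
    have h1 := congrArg p e
    simp only [hp] at h1
    have h2 := congrArg q h1
    rw [hq] at h2
    exact h2

theorem card_four {α : Type} [DecidableEq α] {a b c e : α} (h1 : a ≠ b) (h2 : a ≠ c) (h3 : a ≠ e)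
    (h4 : b ≠ c) (h5 : b ≠ e) (h6 : c ≠ e) : ({a, b, c, e} : Finset α).card = 4 := by
  rw [card_insert_of_notMem, card_insert_of_notMem, card_insert_of_notMem, card_singleton]
  · simpa using h6
  · simp only [mem_insert, mem_singleton, not_or]
    exact ⟨h4, h5⟩
  · simp only [mem_insert, mem_singleton, not_or]
    exact ⟨h1, h2, h3⟩

namespace FlagSystem

variable {d : ℕ} {A : FlagSystem d}

/-- The edge of a flag. -/
def edge (A : FlagSystem d) (φ : A.Flag) : A.Edge := Quot.mk _ φ

/-- The face of a flag. -/
def face (A : FlagSystem d) (φ : A.Flag) : A.Face := Quot.mk _ φ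

namespace IsPseudolineArrangement

variable (h : A.IsPseudolineArrangement)

include h

theorem finite_vertex : Finite A.Vertex := by
  have := h.finite
  exact Finite.of_surjective (Quot.mk _) Quot.mk_surjective

theorem finite_edge : Finite A.Edge := by
  have := h.finite
  exact Finite.of_surjective (Quot.mk _) Quot.mk_surjective

theorem finite_face : Finite A.Face := by
  have := h.finite
  exact Finite.of_surjective (Quot.mk _) Quot.mk_surjective

open Classical in
theorem card_edge_fiber [Fintype A.Flag] (e : A.Edge) :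
    (univ.filter fun ψ : A.Flag => A.edge ψ = e).card = 4 := by
  obtain ⟨φ, rfl⟩ := Quot.exists_rep e
  change (univ.filter fun ψ : A.Flag => A.edge ψ = A.edge φ).card = 4
  have h1 : (univ.filter fun ψ : A.Flag => A.edge ψ = A.edge φ) =
      {φ, A.s0 φ, A.s2 φ, A.s2 (A.s0 φ)} := by
    ext ψ
    simp only [mem_filter, mem_univ, true_and, mem_insert, mem_singleton]
    constructor
    · intro e
      refine quot_closed A.s0 A.s2 h.s0_s0 h.s2_s2
        (fun ψ => ψ = φ ∨ ψ = A.s0 φ ∨ ψ = A.s2 φ ∨ ψ = A.s2 (A.s0 φ)) ?_ ?_ e.symm (Or.inl rfl)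
      · rintro x (rfl | rfl | rfl | rfl)
        · exact Or.inr (Or.inl rfl)
        · exact Or.inl (h.s0_s0 _)
        · exact Or.inr (Or.inr (Or.inr (h.s0_s2 _)))
        · exact Or.inr (Or.inr (Or.inl (by rw [h.s0_s2, h.s0_s0])))
      · rintro x (rfl | rfl | rfl | rfl)
        · exact Or.inr (Or.inr (Or.inl rfl))
        · exact Or.inr (Or.inr (Or.inr rfl))
        · exact Or.inl (h.s2_s2 _)
        · exact Or.inr (Or.inl (h.s2_s2 _))
    · have r0 : ∀ x : A.Flag, A.edge (A.s0 x) = A.edge x := fun x => by
        symm; apply Quot.sound; exact Or.inl rfl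
      have r2 : ∀ x : A.Flag, A.edge (A.s2 x) = A.edge x := fun x => by
        symm; apply Quot.sound; exact Or.inr rfl
      rintro (rfl | rfl | rfl | rfl)
      · rfl
      · exact r0 _
      · exact r2 _
      · exact (r2 _).trans (r0 _)
  rw [h1]
  apply card_four
  · exact (h.s0_ne φ).symm
  · exact (h.s2_ne φ).symm
  · rw [← h.s0_s2]; exact (h.s0_s2_ne φ).symm
  · intro e
    apply h.s0_s2_ne φ
    rw [← e, h.s0_s0]
  · exact (h.s2_ne _).symm
  · intro e
    have := congrArg A.s2 e
    rw [h.s2_s2, h.s2_s2] at this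
    exact h.s0_ne φ this.symm

theorem card_flag_edge : Nat.card A.Flag = 4 * Nat.card A.Edge := by
  classical
  have := h.finite
  have := h.finite_edge
  have := Fintype.ofFinite A.Flag
  have := Fintype.ofFinite A.Edge
  rw [Nat.card_eq_fintype_card, Nat.card_eq_fintype_card, ← card_univ,
    card_eq_sum_card_fiberwise (f := A.edge) (t := univ) (fun _ _ => by simp)]
  rw [sum_congr rfl fun e _ => h.card_edge_fiber e, sum_const, card_univ, smul_eq_mul, mul_comm]

open Classical in
theorem card_vertex_fiber [Fintype A.Flag] (v : A.Vertex) :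
    (univ.filter fun ψ : A.Flag => A.vertex ψ = v).card = 4 * A.mult v := by
  have h1 : ∀ x : Fin d, ((univ.filter fun ψ : A.Flag => A.vertex ψ = v).filter
      fun ψ => A.line ψ = x).card = if A.On v x then 4 else 0 := by
    intro x
    split_ifs with hx
    · obtain ⟨φ, rfl, rfl⟩ := hx
      have h2 : ((univ.filter fun ψ : A.Flag => A.vertex ψ = A.vertex φ).filter
          fun ψ => A.line ψ = A.line φ) = {φ, A.s2 φ, A.ahead φ, A.s2 (A.ahead φ)} := by
        ext ψ
        simp only [mem_filter, mem_univ, true_and, mem_insert, mem_singleton]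
        constructor
        · rintro ⟨e1, e2⟩
          exact h.four e1 e2
        · rintro (rfl | rfl | rfl | rfl)
          · exact ⟨rfl, rfl⟩
          · exact ⟨vertex_s2 _, h.line_s2 _⟩
          · exact ⟨vertex_ahead _, h.line_iter_mult _⟩
          · exact ⟨(vertex_s2 _).trans (vertex_ahead _), (h.line_s2 _).trans (h.line_iter_mult _)⟩
      rw [h2]
      apply card_four
      · exact (h.s2_ne φ).symm
      · exact (h.ahead_ne φ).symm
      · intro e
        apply h.ahead_ne_s2 φ
        rw [e, h.s2_s2, ← e]
      · exact (h.ahead_ne_s2 φ).symm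
      · intro e
        have := congrArg A.s2 e
        rw [h.s2_s2, h.s2_s2] at this
        exact h.ahead_ne φ this.symm
      · exact (h.s2_ne _).symm
    · rw [card_eq_zero, filter_eq_empty_iff]
      intro ψ hψ e
      apply hx
      rw [mem_filter] at hψ
      exact ⟨ψ, hψ.2, e⟩
  rw [card_eq_sum_card_fiberwise (f := A.line) (t := univ) (fun _ _ => by simp),
    sum_congr rfl fun x _ => h1 x, ← sum_filter, sum_const, smul_eq_mul, mult_eq_card, mul_comm]

theorem card_flag_vertex [Fintype A.Vertex] :
    Nat.card A.Flag = 4 * ∑ v : A.Vertex, A.mult v := by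
  classical
  have := h.finite
  have := Fintype.ofFinite A.Flag
  rw [Nat.card_eq_fintype_card, ← card_univ,
    card_eq_sum_card_fiberwise (f := A.vertex) (t := univ) (fun _ _ => by simp),
    sum_congr rfl fun v _ => h.card_vertex_fiber v, mul_sum]

open Classical in
theorem card_double [Fintype A.Flag] :
    (univ.filter fun ψ : A.Flag => A.mult (A.vertex ψ) = 2).card = 8 * A.t 2 := by
  have := h.finite_vertex
  have := Fintype.ofFinite A.Vertex
  rw [card_eq_sum_card_fiberwise (f := A.vertex) (t := univ) (fun _ _ => by simp)]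
  have h1 : ∀ v : A.Vertex, ((univ.filter fun ψ : A.Flag => A.mult (A.vertex ψ) = 2).filter
      fun ψ => A.vertex ψ = v).card = if A.mult v = 2 then 8 else 0 := by
    intro v
    split_ifs with hv
    · have h2 : ((univ.filter fun ψ : A.Flag => A.mult (A.vertex ψ) = 2).filter
          fun ψ => A.vertex ψ = v) = univ.filter fun ψ : A.Flag => A.vertex ψ = v := by
        ext ψ
        simp only [mem_filter, mem_univ, true_and]
        constructor
        · exact fun e => e.2
        · rintro rfl
          exact ⟨hv, rfl⟩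
      rw [h2, h.card_vertex_fiber, hv]
    · rw [card_eq_zero, filter_eq_empty_iff]
      intro ψ hψ e
      rw [mem_filter, e] at hψ
      exact hv hψ.2
  rw [sum_congr rfl fun v _ => h1 v, ← sum_filter, sum_const, smul_eq_mul, t,
    Nat.card_eq_fintype_card, Fintype.card_subtype, mul_comm]

end IsPseudolineArrangement

end FlagSystem

end Pool.Agent.Helper18.PL
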