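import Pool.Agent.Helper18.PL.Arith

/-!
# The Bogomolov-Miyaoka-Yau inequality for Hirzebruch's coverings branched along pseudolines

Let `A` be an arrangement of `d` pseudolines in the real projective plane, at most `d - 2` of which
pass through a point (see `Pool.Agent.Helper18.PL.Defs` for the combinatorial description of
arrangements by their flags). By Ruberman and Starkston, `A` extends to an arrangement of
symplectic spheres in the class of a line in `CP^2` which intersect like complex lines. For `n ≥ 2`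
let `X_n` be Hirzebruch's covering: the `(Z/n)^{d-1}`-covering of `CP^2`, blown up at the points
of multiplicity at least three, branched with index `n` along the proper transforms of the spheres
and along the exceptional spheres. It is a closed symplectic four-manifold, and its Chern numbers
are given by the topological formulas of Hirzebruch, in terms of the number `f₀` of vertices, the
number `f₁` of edges and the number `t₂` of double points of `A`.
-/

namespace Pool.Agent.Helper18.PL.Covers

open Pool.Agent.Helper18.PL FlagSystem Finset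

/-- Hirzebruch's formula for the Euler number `c₂(X_n)`. -/
noncomputable def c2 {d : ℕ} (A : FlagSystem d) (n : ℕ) : ℤ :=
  n ^ (d - 3) * (n ^ 2 * (3 - 2 * d + Nat.card A.Edge - Nat.card A.Vertex) +
    2 * n * (d - Nat.card A.Edge + Nat.card A.Vertex) + Nat.card A.Edge - A.t 2)

/-- Hirzebruch's formula for `c₁(X_n)²`, the self-intersection of the canonical class. -/
noncomputable def c1sq {d : ℕ} (A : FlagSystem d) (n : ℕ) : ℤ :=
  n ^ (d - 3) * (n ^ 2 * (9 - 5 * d + 3 * Nat.card A.Edge - 4 * Nat.card A.Vertex) +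
    4 * n * (d - Nat.card A.Edge + Nat.card A.Vertex) + Nat.card A.Edge - Nat.card A.Vertex + d +
      A.t 2)

/-- The difference `3 c₂ - c₁²`. -/
theorem sub_eq {d : ℕ} (A : FlagSystem d) (n : ℕ) :
    3 * c2 A n - c1sq A n = n ^ (d - 3) * (((n : ℤ) + 1) ^ 2 * Nat.card A.Vertex -
      2 * ((n : ℤ) - 1) * Nat.card A.Edge - ((n : ℤ) - 1) ^ 2 * d - 4 * A.t 2) := by
  unfold c2 c1sq
  ring

/-- The contributions of the vertices. -/
theorem pointwise (m : ℤ) (hm : 2 ≤ m) (k : ℕ) (hk : 2 ≤ k) :
    m ^ 2 * W8 k + (if k = 3 then 2 * (m - 4) ^ 2 else 0) +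
      (if 4 ≤ k then 8 * (m - 2) * (m - 2) else 0) ≤
    8 * ((m + 2) ^ 2 - 2 * m * k - (if k = 2 then 4 else 0)) := by
  unfold W8
  rcases (by omega : k = 2 ∨ k = 3 ∨ 4 ≤ k) with rfl | rfl | h4
  · norm_num
    apply le_of_eq
    ring
  · norm_num
    apply le_of_eq
    ring
  · rw [if_neg (by omega), if_neg (by omega), if_neg (by omega), if_pos h4, if_neg (by omega)]
    have hk4 : (4 : ℤ) ≤ k := by exact_mod_cast h4
    have h1 : 0 ≤ (m - 2) * (m * ((k : ℤ) - 4)) :=
      mul_nonneg (by linarith) (mul_nonneg (by linarith) (by linarith))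
    nlinarith

/-- For every arrangement of pseudolines such that no point lies on more than `d - 2` of them and
every `n ≥ 3`, the covering `X_n` satisfies the Bogomolov-Miyaoka-Yau inequality
`c₁² ≤ 3 c₂`, with equality if and only if `n = 5` and `d = 6`, `t₂ = 3`, `t₃ = 4` (the complete
quadrilateral). -/
theorem result : ∀ (d : ℕ) (A : FlagSystem d), A.IsPseudolineArrangement →
    (∀ v, A.mult v + 2 ≤ d) → ∀ n : ℕ, 3 ≤ n →
      c1sq A n ≤ 3 * c2 A n ∧
      (c1sq A n = 3 * c2 A n ↔ n = 5 ∧ d = 6 ∧ A.t 2 = 3 ∧ A.t 3 = 4) := by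
  classical
  intro d A hA hmax n hn
  have := hA.finite_vertex
  have := Fintype.ofFinite A.Vertex
  obtain ⟨hm1, hm2⟩ := hA.main_ineq hmax
  have e1 : (Nat.card A.Edge : ℤ) = ∑ v : A.Vertex, (A.mult v : ℤ) := by
    have e2 := hA.card_flag_edge
    have e3 := hA.card_flag_vertex
    have e4 : Nat.card A.Edge = ∑ v : A.Vertex, A.mult v := by omega
    rw [e4, Nat.cast_sum]
  set m : ℤ := (n : ℤ) - 1 with hm
  have hm3 : 2 ≤ m := by
    have : (3 : ℤ) ≤ n := by exact_mod_cast hn
    linarith
  set B : ℤ := ((n : ℤ) + 1) ^ 2 * Nat.card A.Vertex -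
      2 * ((n : ℤ) - 1) * Nat.card A.Edge - ((n : ℤ) - 1) ^ 2 * d - 4 * A.t 2 with hB
  have hB8 : 8 * B = ∑ v : A.Vertex, 8 * ((m + 2) ^ 2 - 2 * m * A.mult v -
      (if A.mult v = 2 then 4 else 0)) - 8 * m ^ 2 * d := by
    have h4 : ∑ v : A.Vertex, (if A.mult v = 2 then (4 : ℤ) else 0) = 4 * A.t 2 := by
      rw [← sum_filter, sum_const, t_eq, nsmul_eq_mul]
      ring
    rw [← mul_sum, sum_sub_distrib, sum_sub_distrib, h4, ← mul_sum, sum_const, card_univ,
      nsmul_eq_mul, hB, e1, Nat.card_eq_fintype_card, hm]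
    ring
  have hsum := sum_le_sum fun (v : A.Vertex) (_ : v ∈ univ) =>
    pointwise m hm3 (A.mult v) (hA.two_le v)
  rw [sum_add_distrib, sum_add_distrib, ← mul_sum, ← sum_filter, ← sum_filter, sum_const, sum_const,
    nsmul_eq_mul, nsmul_eq_mul, ← t_eq] at hsum
  set N4 := (univ.filter fun v : A.Vertex => 4 ≤ A.mult v).card with hN4
  have hsq1 : 0 ≤ (A.t 3 : ℤ) * (2 * (m - 4) ^ 2) := by positivity
  have hsq2 : 0 ≤ (N4 : ℤ) * (8 * (m - 2) * (m - 2)) := by
    have : 0 ≤ 8 * (m - 2) * (m - 2) := by nlinarith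
    positivity
  have hmpos : 0 < m ^ 2 := by positivity
  -- the inequality for `B`
  have hB0 : 0 ≤ B ∧ (B = 0 → n = 5 ∧ d = 6 ∧ A.t 2 = 3 ∧ A.t 3 = 4) := by
    have h1 : m ^ 2 * (8 * d) ≤ m ^ 2 * ∑ v : A.Vertex, W8 (A.mult v) :=
      mul_le_mul_of_nonneg_left hm1 hmpos.le
    constructor
    · linarith
    · intro hB1
      rw [hB1] at hB8
      have h2 : m ^ 2 * (8 * d) = m ^ 2 * ∑ v : A.Vertex, W8 (A.mult v) :=
        le_antisymm h1 (by linarith)
      have h3 := hm2 (mul_left_cancel₀ hmpos.ne' h2)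
      have h4 : (A.t 3 : ℤ) * (2 * (m - 4) ^ 2) = 0 := le_antisymm (by linarith) hsq1
      have h5 : (N4 : ℤ) * (8 * (m - 2) * (m - 2)) = 0 := le_antisymm (by linarith) hsq2
      have h6 : A.t 3 = 4 := by rcases h3.2 with h | h <;> exact h.2.2.1
      have h7 : m = 4 := by
        rw [h6] at h4
        have : (m - 4) ^ 2 = 0 := by push_cast at h4; linarith
        have := pow_eq_zero_iff (two_ne_zero) |>.1 this
        linarith
      refine ⟨?_, ?_⟩
      · have : (n : ℤ) = 5 := by linarith
        exact_mod_cast this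
      · rcases h3.2 with h | h
        · exact ⟨h.1, h.2.1, h.2.2.1⟩
        · exfalso
          rw [h7] at h5
          norm_num at h5
          rw [hN4, card_eq_zero, filter_eq_empty_iff] at h5
          obtain ⟨P, hP⟩ := exists_of_t_pos (A := A) (k := 4) (by omega)
          exact h5 (mem_univ P) (by omega)
  have hnpos : (0 : ℤ) < n ^ (d - 3) := by
    have : (0 : ℤ) < n := by
      have : (3 : ℤ) ≤ n := by exact_mod_cast hn
      linarith
    positivity
  have hsub := sub_eq A n
  rw [← hB] at hsub
  constructor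
  · have := mul_nonneg hnpos.le hB0.1
    linarith
  · constructor
    · intro e
      apply hB0.2
      have : (n : ℤ) ^ (d - 3) * B = 0 := by linarith
      exact (mul_eq_zero.1 this).resolve_left hnpos.ne'
    · rintro ⟨rfl, rfl, h2, h3⟩
      -- six lines with three double and four triple points have no other multiple points
      have h5 : ∀ v : A.Vertex, A.mult v ≤ 4 := fun v => by
        have := hmax v
        omega
      have F3 := hA.sum_pairs
      have s2 := hA.sum_mult5 (fun k => (k : ℤ) * (k - 1)) (fun v => (h5 v).trans (by norm_num))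
      have s1 := hA.sum_mult5 (fun k => (k : ℤ)) (fun v => (h5 v).trans (by norm_num))
      have s0 := hA.sum_mult5 (fun _ => (1 : ℤ)) (fun v => (h5 v).trans (by norm_num))
      simp only [sum_const, card_univ, nsmul_eq_mul, mul_one] at s0
      push_cast at s1 s2
      rw [s2, h2, h3] at F3
      have hB1 : B = 0 := by
        rw [hB, e1, s1, Nat.card_eq_fintype_card, s0, h2, h3]
        push_cast at F3 ⊢
        have p4 : (0 : ℤ) ≤ A.t 4 := Int.natCast_nonneg _
        have p5 : (0 : ℤ) ≤ A.t 5 := Int.natCast_nonneg _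
        have q4 : (A.t 4 : ℤ) = 0 := by linarith
        have q5 : (A.t 5 : ℤ) = 0 := by linarith
        rw [q4, q5]
        norm_num
      rw [hB1, mul_zero] at hsub
      linarith

end Pool.Agent.Helper18.PL.Covers
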