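import Mathlib

/-!
# Arrangements of pseudolines in the real projective plane, described by flags

A cell decomposition of a closed surface is described by its flags, that is the triples
(vertex, edge, face) of mutually incident cells (more exactly the triangles of the barycentric
subdivision), and by the three involutions `s0`, `s1`, `s2` which exchange the vertex, the edge, the
face of a flag. Vertices, edges and faces are the orbits of the flags under the two involutions
that do not change them.

An arrangement of `d ≥ 2` pseudolines in the real projective plane (simple closed curves any two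
of which meet in exactly one point, where they cross) is the same as such a cell decomposition of
Euler characteristic `1`, each of whose edges belongs to one of `d` lines, with the properties
listed in `IsPseudolineArrangement`.
-/

namespace Pool.Agent.Helper18.PL

/-- Flags, the involutions exchanging the vertex (`s0`), the edge (`s1`), the face (`s2`) of a
flag, and the line (one of `d` pseudolines) which contains the edge of a flag. -/
structure FlagSystem (d : ℕ) where
  Flag : Type
  s0 : Flag → Flag
  s1 : Flag → Flag
  s2 : Flag → Flag
  line : Flag → Fin d

namespace FlagSystem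

variable {d : ℕ} (A : FlagSystem d)

/-- The vertices: flags up to exchanging the edge or the face. -/
def Vertex : Type := Quot fun φ ψ : A.Flag => ψ = A.s1 φ ∨ ψ = A.s2 φ

/-- The edges: flags up to exchanging the vertex or the face. -/
def Edge : Type := Quot fun φ ψ : A.Flag => ψ = A.s0 φ ∨ ψ = A.s2 φ

/-- The faces: flags up to exchanging the vertex or the edge. -/
def Face : Type := Quot fun φ ψ : A.Flag => ψ = A.s0 φ ∨ ψ = A.s1 φ

/-- The vertex of a flag. -/
def vertex (φ : A.Flag) : A.Vertex := Quot.mk _ φ

/-- The vertex `v` lies on the line `x`. -/
def On (v : A.Vertex) (x : Fin d) : Prop := ∃ φ : A.Flag, A.vertex φ = v ∧ A.line φ = x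

/-- The number of lines through a vertex. -/
noncomputable def mult (v : A.Vertex) : ℕ := Nat.card {x : Fin d // A.On v x}

/-- Rotation about the vertex of a flag, from one edge to the next. -/
def turn (φ : A.Flag) : A.Flag := A.s1 (A.s2 φ)

/-- Half a turn about the vertex: going straight ahead through the vertex. -/
noncomputable def ahead (φ : A.Flag) : A.Flag := A.turn^[A.mult (A.vertex φ)] φ

/-- `A` is (the flag system of) an arrangement of `d` pseudolines in the real projective plane. -/
structure IsPseudolineArrangement : Prop where
  /-- there are finitely many flags -/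
  finite : Finite A.Flag
  /-- `s0`, `s1`, `s2`, `s0 s2` are involutions without fixed points, `s0` and `s2` commute
  (so the flags are those of a cell decomposition of a closed surface) -/
  s0_s0 : ∀ φ, A.s0 (A.s0 φ) = φ
  s1_s1 : ∀ φ, A.s1 (A.s1 φ) = φ
  s2_s2 : ∀ φ, A.s2 (A.s2 φ) = φ
  s0_ne : ∀ φ, A.s0 φ ≠ φ
  s1_ne : ∀ φ, A.s1 φ ≠ φ
  s2_ne : ∀ φ, A.s2 φ ≠ φ
  s0_s2 : ∀ φ, A.s0 (A.s2 φ) = A.s2 (A.s0 φ)
  s0_s2_ne : ∀ φ, A.s0 (A.s2 φ) ≠ φ
  /-- the Euler characteristic of the surface is `1`: it is the real projective plane
  (it is connected, since each edge lies on a line, lines are connected and meet pairwise) -/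
  euler : Nat.card A.Vertex + Nat.card A.Face = Nat.card A.Edge + 1
  /-- the line of a flag depends only on its edge -/
  line_s0 : ∀ φ, A.line (A.s0 φ) = A.line φ
  line_s2 : ∀ φ, A.line (A.s2 φ) = A.line φ
  /-- at least two lines pass through each vertex -/
  two_le : ∀ v, 2 ≤ A.mult v
  /-- if `k` lines pass through a vertex, then there are `2 k` edge ends around it -/
  around : ∀ φ i, A.turn^[i] φ = φ ↔ 2 * A.mult (A.vertex φ) ∣ i
  /-- and the ends on the same line are the opposite ones: the lines cross at the vertex,
  and each of them passes through it only once -/
  straight : ∀ φ i, A.line (A.turn^[i] φ) = A.line φ ↔ A.mult (A.vertex φ) ∣ i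
  /-- each line is one closed curve: one gets from each of its flags to each other by moving along
  the line, going straight ahead at the vertices -/
  closed : ∀ φ ψ, A.line φ = A.line ψ →
    Relation.ReflTransGen (fun a b => b = A.s0 a ∨ b = A.s2 a ∨ b = A.ahead a) φ ψ
  /-- two different lines have exactly one common vertex -/
  meet : ∀ x y : Fin d, x ≠ y → ∃! v, A.On v x ∧ A.On v y

/-- The number `t_k` of vertices through which exactly `k` lines pass. -/
noncomputable def t (k : ℕ) : ℕ := Nat.card {v : A.Vertex // A.mult v = k}

end FlagSystem

end Pool.Agent.Helper18.PL
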