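import Pool.Agent.Helper18.PL.Basic

/-!
# Faces have at least three sides; triangles with a common edge between double points
-/

namespace Pool.Agent.Helper18.PL

namespace FlagSystem

variable {d : ℕ} {A : FlagSystem d}

/-- The face of the flag is a triangle (or a face with fewer sides, which does not occur). -/
def Tri (A : FlagSystem d) (φ : A.Flag) : Prop :=
  A.s0 (A.s1 (A.s0 (A.s1 (A.s0 (A.s1 φ))))) = φ

namespace IsPseudolineArrangement

variable (h : A.IsPseudolineArrangement) (hmax : ∀ v, A.mult v + 2 ≤ d)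
include h

/-- Given two flags `a`, `b` of a line at the same vertex, with `b` neither `a` nor `s2 a`, all
flags of this line at this vertex are among `a`, `s2 a`, `b`, `s2 b`. -/
theorem four' {a b : A.Flag} (e : A.vertex b = A.vertex a) (l : A.line b = A.line a)
    (h1 : b ≠ a) (h2 : b ≠ A.s2 a) {ψ : A.Flag} (e' : A.vertex ψ = A.vertex a)
    (l' : A.line ψ = A.line a) : ψ = a ∨ ψ = A.s2 a ∨ ψ = b ∨ ψ = A.s2 b := by
  rcases h.four e l with hb | hb | hb | hb
  · exact absurd hb h1
  · exact absurd hb h2
  · rcases h.four e' l' with hc | hc | hc | hc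
    · exact Or.inl hc
    · exact Or.inr (Or.inl hc)
    · exact Or.inr (Or.inr (Or.inl (hc.trans hb.symm)))
    · exact Or.inr (Or.inr (Or.inr (by rw [hc, hb])))
  · have hb' : A.s2 b = A.ahead a := by rw [hb, h.s2_s2]
    rcases h.four e' l' with hc | hc | hc | hc
    · exact Or.inl hc
    · exact Or.inr (Or.inl hc)
    · exact Or.inr (Or.inr (Or.inr (hc.trans hb'.symm)))
    · exact Or.inr (Or.inr (Or.inl (hc.trans hb.symm)))

include hmax

/-- No edge is a loop. -/
theorem vertex_s0_ne (φ : A.Flag) : A.vertex (A.s0 φ) ≠ A.vertex φ := by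
  intro e
  have h02 : ∀ a : A.Flag, A.s0 a ≠ A.s2 a := by
    intro a ea
    apply h.s0_s2_ne a
    rw [← ea, h.s0_s0]
  -- all flags on the line are at this vertex
  have key : ∀ ψ, Relation.ReflTransGen (fun a b => b = A.s0 a ∨ b = A.s2 a ∨ b = A.ahead a) φ ψ →
      A.line ψ = A.line φ ∧ A.vertex ψ = A.vertex φ ∧ A.vertex (A.s0 ψ) = A.vertex φ := by
    intro ψ hψ
    induction hψ with
    | refl => exact ⟨rfl, rfl, e⟩
    | @tail b c _ hbc ih =>
      obtain ⟨ih1, ih2, ih3⟩ := ih
      rcases hbc with rfl | rfl | rfl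
      · exact ⟨(h.line_s0 b).trans ih1, ih3, by rw [h.s0_s0]; exact ih2⟩
      · refine ⟨(h.line_s2 b).trans ih1, (vertex_s2 b).trans ih2, ?_⟩
        rw [h.s0_s2, vertex_s2]
        exact ih3
      · refine ⟨(h.line_iter_mult b).trans ih1, (vertex_ahead b).trans ih2, ?_⟩
        have h3 : A.vertex (A.s0 b) = A.vertex b := ih3.trans ih2.symm
        rcases h.four h3 (h.line_s0 b) with h4 | h4 | h4 | h4
        · exact absurd h4 (h.s0_ne b)
        · exact absurd h4 (h02 b)
        · rw [← h4, h.s0_s0]
          exact ih2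
        · have h5 : A.ahead b = A.s2 (A.s0 b) := by rw [h4, h.s2_s2]
          rw [h5, h.s0_s2, h.s0_s0, vertex_s2]
          exact ih2
  have hall : ∀ x, A.On (A.vertex φ) x := by
    intro x
    by_cases hx : x = A.line φ
    · rw [hx]; exact on_vertex φ
    · obtain ⟨v, ⟨hv1, hv2⟩, -⟩ := h.meet x (A.line φ) hx
      obtain ⟨ψ, rfl, hψ⟩ := hv2
      rw [← (key ψ (h.closed φ ψ hψ.symm)).2.1]
      exact hv1
  have h1 := h.le_mult_iff (A.vertex φ) hall (by have := hmax (A.vertex φ); omega)
  have h2 := hmax (A.vertex φ)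
  omega

theorem s0_ne_s1 (φ : A.Flag) : A.s0 φ ≠ A.s1 φ := by
  intro e
  apply h.line_s1_ne φ
  rw [← e, h.line_s0]

/-- There are no faces with two sides. -/
theorem no_digon (φ : A.Flag) : A.s0 (A.s1 (A.s0 (A.s1 φ))) ≠ φ := by
  intro e
  have e1 : A.s1 (A.s0 (A.s1 φ)) = A.s0 φ := by
    have := congrArg A.s0 e
    rwa [h.s0_s0] at this
  have hv : A.vertex (A.s0 (A.s1 φ)) = A.vertex (A.s0 φ) := by
    rw [← e1, vertex_s1]
  have h1 : A.On (A.vertex φ) (A.line φ) := on_vertex φ
  have h2 : A.On (A.vertex φ) (A.line (A.s1 φ)) := by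
    have := on_vertex (A.s1 φ)
    rwa [vertex_s1] at this
  have h3 : A.On (A.vertex (A.s0 φ)) (A.line φ) := h.on_s0 φ
  have h4 : A.On (A.vertex (A.s0 φ)) (A.line (A.s1 φ)) := by
    rw [← hv]
    exact h.on_s0 (A.s1 φ)
  exact h.vertex_s0_ne hmax φ (h.meet_unique (h.line_s1_ne φ).symm h3 h4 h1 h2)

/-- If both ends of an edge are double points, then not both faces at the edge are triangles. -/
theorem not_tri {φ : A.Flag} (hv : A.mult (A.vertex φ) = 2) (hw : A.mult (A.vertex (A.s0 φ)) = 2)
    (h1 : A.Tri φ) : ¬ A.Tri (A.s2 φ) := by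
  intro h2
  -- the neighbouring edges at a double point are on the same line
  have hdbl : ∀ χ : A.Flag, A.mult (A.vertex χ) = 2 →
      A.s1 (A.s2 χ) = A.ahead (A.s2 (A.s1 χ)) := by
    intro χ hχ
    unfold ahead
    rw [vertex_s2, vertex_s1, hχ]
    change _ = A.s1 (A.s2 (A.s1 (A.s2 (A.s2 (A.s1 χ)))))
    rw [h.s2_s2, h.s1_s1]
  have hline : ∀ χ : A.Flag, A.mult (A.vertex χ) = 2 →
      A.line (A.s1 (A.s2 χ)) = A.line (A.s1 χ) := by
    intro χ hχ
    rw [hdbl χ hχ, h.line_iter_mult, h.line_s2]
  have hne : ∀ χ : A.Flag, A.mult (A.vertex χ) = 2 → A.s1 (A.s2 χ) ≠ A.s1 χ := by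
    intro χ hχ
    rw [hdbl χ hχ]
    intro e
    apply h.ahead_ne_s2 (A.s2 (A.s1 χ))
    rw [h.s2_s2]
    exact e
  have hne2 : ∀ χ : A.Flag, A.mult (A.vertex χ) = 2 → A.s1 (A.s2 χ) ≠ A.s2 (A.s1 χ) := by
    intro χ hχ
    rw [hdbl χ hχ]
    exact h.ahead_ne _
  set a := A.s1 φ with ha
  set a' := A.s1 (A.s2 φ) with ha'
  have la : A.line a' = A.line a := hline φ hv
  -- the third vertices of the triangles
  have t1 : A.s0 (A.s1 (A.s0 a)) = A.s1 (A.s0 φ) := by
    have := congrArg A.s0 h1
    rw [h.s0_s0] at this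
    have := congrArg A.s1 this
    rwa [h.s1_s1] at this
  have t2 : A.s0 (A.s1 (A.s0 a')) = A.s1 (A.s2 (A.s0 φ)) := by
    have := congrArg A.s0 h2
    rw [h.s0_s0] at this
    have := congrArg A.s1 this
    rw [h.s1_s1] at this
    rw [ha', this, h.s0_s2]
  have lb : A.line (A.s1 (A.s0 a)) = A.line (A.s1 (A.s0 φ)) := by
    rw [← t1, h.line_s0]
  have lb' : A.line (A.s1 (A.s0 a')) = A.line (A.s1 (A.s0 φ)) := by
    rw [← h.line_s0, t2, hline _ hw]
  have hxy : A.line a ≠ A.line (A.s1 (A.s0 φ)) := by
    intro e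
    apply h.line_s1_ne (A.s0 a)
    rw [lb, h.line_s0, e]
  have w1 : A.On (A.vertex (A.s0 a)) (A.line a) := h.on_s0 a
  have w2 : A.On (A.vertex (A.s0 a)) (A.line (A.s1 (A.s0 φ))) := by
    rw [← lb]
    have := on_vertex (A.s1 (A.s0 a))
    rwa [vertex_s1] at this
  have w3 : A.On (A.vertex (A.s0 a')) (A.line a) := by
    rw [← la]; exact h.on_s0 a'
  have w4 : A.On (A.vertex (A.s0 a')) (A.line (A.s1 (A.s0 φ))) := by
    rw [← lb']
    have := on_vertex (A.s1 (A.s0 a'))
    rwa [vertex_s1] at this
  have hww : A.vertex (A.s0 a') = A.vertex (A.s0 a) := h.meet_unique hxy w3 w4 w1 w2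
  have va : A.vertex a = A.vertex φ := vertex_s1 φ
  have va' : A.vertex a' = A.vertex φ := by rw [ha', vertex_s1, vertex_s2]
  have hinj : ∀ b c : A.Flag, A.s0 b = A.s0 c → b = c := by
    intro b c e
    rw [← h.s0_s0 b, e, h.s0_s0]
  -- the line through `a` has only two vertices
  have key : ∀ ψ, Relation.ReflTransGen (fun a b => b = A.s0 a ∨ b = A.s2 a ∨ b = A.ahead a) a ψ →
      A.line ψ = A.line a ∧ ((ψ = a ∨ ψ = A.s2 a ∨ ψ = a' ∨ ψ = A.s2 a') ∨
        (ψ = A.s0 a ∨ ψ = A.s2 (A.s0 a) ∨ ψ = A.s0 a' ∨ ψ = A.s2 (A.s0 a'))) := by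
    intro ψ hψ
    induction hψ with
    | refl => exact ⟨rfl, Or.inl (Or.inl rfl)⟩
    | @tail b c _ hbc ih =>
      obtain ⟨ih1, ih2⟩ := ih
      rcases hbc with rfl | rfl | rfl
      · refine ⟨(h.line_s0 b).trans ih1, ?_⟩
        rcases ih2 with (rfl | rfl | rfl | rfl) | (rfl | rfl | rfl | rfl)
        · right; left; rfl
        · right; right; left; exact h.s0_s2 _
        · right; right; right; left; rfl
        · right; right; right; right; exact h.s0_s2 _
        · left; left; exact h.s0_s0 _
        · left; right; left; rw [h.s0_s2, h.s0_s0]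
        · left; right; right; left; exact h.s0_s0 _
        · left; right; right; right; rw [h.s0_s2, h.s0_s0]
      · refine ⟨(h.line_s2 b).trans ih1, ?_⟩
        rcases ih2 with (rfl | rfl | rfl | rfl) | (rfl | rfl | rfl | rfl)
        · left; right; left; rfl
        · left; left; exact h.s2_s2 _
        · left; right; right; right; rfl
        · left; right; right; left; exact h.s2_s2 _
        · right; right; left; rfl
        · right; left; exact h.s2_s2 _
        · right; right; right; right; rfl
        · right; right; right; left; exact h.s2_s2 _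
      · have hl : A.line (A.ahead b) = A.line a := (h.line_iter_mult b).trans ih1
        refine ⟨hl, ?_⟩
        rcases ih2 with hb | hb
        · left
          have hvb : A.vertex b = A.vertex a := by
            rcases hb with rfl | rfl | rfl | rfl
            · rfl
            · exact vertex_s2 _
            · exact va'.trans va.symm
            · rw [vertex_s2]; exact va'.trans va.symm
          exact h.four' (va'.trans va.symm) la (hne φ hv) (hne2 φ hv)
            ((vertex_ahead b).trans hvb) hl
        · right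
          have hvb : A.vertex b = A.vertex (A.s0 a) := by
            rcases hb with rfl | rfl | rfl | rfl
            · rfl
            · exact vertex_s2 _
            · exact hww
            · rw [vertex_s2]; exact hww
          refine h.four' hww (by rw [h.line_s0, h.line_s0, la]) ?_ ?_
            ((vertex_ahead b).trans hvb) (by rw [h.line_s0]; exact hl)
          · intro e
            exact hne φ hv (hinj _ _ e)
          · intro e
            rw [← h.s0_s2] at e
            exact hne2 φ hv (hinj _ _ e)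
  -- so all lines but one pass through its other vertex
  have hon : ∀ x, x ≠ A.line φ → A.On (A.vertex (A.s0 a)) x := by
    intro x hx
    by_cases hxa : x = A.line a
    · rw [hxa]; exact w1
    obtain ⟨v, ⟨hv1, hv2⟩, -⟩ := h.meet x (A.line a) hxa
    obtain ⟨ψ, rfl, hψ⟩ := hv2
    have hk := (key ψ (h.closed a ψ hψ.symm)).2
    have hcase : A.vertex ψ = A.vertex φ ∨ A.vertex ψ = A.vertex (A.s0 a) := by
      rcases hk with (rfl | rfl | rfl | rfl) | (rfl | rfl | rfl | rfl)
      · exact Or.inl va
      · left; rw [vertex_s2]; exact va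
      · exact Or.inl va'
      · left; rw [vertex_s2]; exact va'
      · exact Or.inr rfl
      · right; rw [vertex_s2]
      · exact Or.inr hww
      · right; rw [vertex_s2]; exact hww
    rcases hcase with hc | hc
    · exfalso
      -- three lines through the double point
      rw [hc] at hv1
      classical
      have h3 : ({x, A.line φ, A.line a} : Finset (Fin d)) ⊆
          (Finset.univ : Finset (Fin d)).filter fun x => A.On (A.vertex φ) x := by
        intro y hy
        rw [Finset.mem_filter]
        refine ⟨Finset.mem_univ _, ?_⟩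
        simp only [Finset.mem_insert, Finset.mem_singleton] at hy
        rcases hy with rfl | rfl | rfl
        · exact hv1
        · exact on_vertex φ
        · rw [← va]; exact on_vertex a
      have h4 := Finset.card_le_card h3
      have h5 := mult_eq_card (A.vertex φ)
      rw [hv] at h5
      have h6 : ({x, A.line φ, A.line a} : Finset (Fin d)).card = 3 := by
        rw [Finset.card_eq_three]
        exact ⟨x, A.line φ, A.line a, hx, hxa, (h.line_s1_ne φ).symm, rfl⟩
      omega
    · rw [← hc]; exact hv1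
  have h8 := h.le_mult _ _ hon
  have h9 := hmax (A.vertex (A.s0 a))
  omega

end IsPseudolineArrangement

end FlagSystem

end Pool.Agent.Helper18.PL
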