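import Pool.Agent.Helper18.PL.TriCount

/-!
# Counting pairs of lines
-/

namespace Pool.Agent.Helper18.PL

open Finset

/-- Eight times the weight `1, 3/4, 0, -1, -2, ...` of a vertex of multiplicity `2, 3, 4, 5, ...`. -/
def W8 (k : ℕ) : ℤ := if k = 2 then 8 else if k = 3 then 6 else 8 * (4 - k)

theorem W8_ge_one (β : ℕ) (hβ : 1 ≤ β) :
    8 * (β : ℤ) - 5 * (β * (β - 1)) ≤ W8 (β + 1) := by
  unfold W8
  split_ifs with h1 h2
  · have : β = 1 := by omega
    subst this
    norm_num
  · have : β = 2 := by omega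
    subst this
    norm_num
  · have h3 : (3 : ℤ) ≤ β := by
      have : 3 ≤ β := by omega
      exact_mod_cast this
    push_cast
    nlinarith

theorem W8_ge_zero (β : ℕ) (hβ : 2 ≤ β) : - 5 * ((β : ℤ) * (β - 1)) ≤ W8 β := by
  unfold W8
  split_ifs with h1 h2
  · subst h1; norm_num
  · subst h2; norm_num
  · have h3 : (2 : ℤ) ≤ β := by exact_mod_cast hβ
    nlinarith

namespace FlagSystem

variable {d : ℕ} {A : FlagSystem d}

open Classical in
/-- The lines through a vertex. -/
noncomputable def linesAt (A : FlagSystem d) (v : A.Vertex) : Finset (Fin d) :=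
  univ.filter fun x => A.On v x

theorem mem_linesAt {v : A.Vertex} {x : Fin d} : x ∈ A.linesAt v ↔ A.On v x := by
  classical
  rw [linesAt, mem_filter]
  exact ⟨fun e => e.2, fun e => ⟨mem_univ _, e⟩⟩

theorem card_linesAt (v : A.Vertex) : (A.linesAt v).card = A.mult v := by
  rw [mult_eq_card, linesAt]

namespace IsPseudolineArrangement

variable (h : A.IsPseudolineArrangement)

include h

theorem count_pairs [Fintype A.Vertex] (S : Finset (Fin d × Fin d)) (hS : ∀ p ∈ S, p.1 ≠ p.2) :
    S.card = ∑ v : A.Vertex,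
      (S.filter fun p => p.1 ∈ A.linesAt v ∧ p.2 ∈ A.linesAt v).card := by
  classical
  have h1 : ∀ p ∈ S, ∑ v : A.Vertex,
      (if p.1 ∈ A.linesAt v ∧ p.2 ∈ A.linesAt v then 1 else 0) = 1 := by
    intro p hp
    obtain ⟨v, ⟨hv1, hv2⟩, hv3⟩ := h.meet p.1 p.2 (hS p hp)
    rw [sum_eq_single v]
    · rw [if_pos ⟨mem_linesAt.2 hv1, mem_linesAt.2 hv2⟩]
    · intro w _ hw
      rw [if_neg]
      rintro ⟨e1, e2⟩
      exact hw (hv3 w ⟨mem_linesAt.1 e1, mem_linesAt.1 e2⟩)
    · intro hv
      exact absurd (mem_univ v) hv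
  calc S.card = ∑ p ∈ S, 1 := by simp
    _ = ∑ p ∈ S, ∑ v : A.Vertex,
        (if p.1 ∈ A.linesAt v ∧ p.2 ∈ A.linesAt v then 1 else 0) :=
      (sum_congr rfl h1).symm
    _ = ∑ v : A.Vertex, ∑ p ∈ S,
        (if p.1 ∈ A.linesAt v ∧ p.2 ∈ A.linesAt v then 1 else 0) := sum_comm
    _ = _ := by
      apply sum_congr rfl
      intro v _
      rw [card_filter]

theorem count_offDiag [Fintype A.Vertex] (M : Finset (Fin d)) :
    M.card * M.card - M.card = ∑ v : A.Vertex,
      ((M ∩ A.linesAt v).card * (M ∩ A.linesAt v).card - (M ∩ A.linesAt v).card) := by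
  rw [← offDiag_card, h.count_pairs M.offDiag (fun p hp => (mem_offDiag.1 hp).2.2)]
  apply sum_congr rfl
  intro v _
  rw [← offDiag_card]
  congr 1
  ext p
  rw [mem_filter, mem_offDiag, mem_offDiag, mem_inter, mem_inter]
  tauto

theorem count_product [Fintype A.Vertex] (M N : Finset (Fin d)) (hMN : Disjoint M N) :
    M.card * N.card = ∑ v : A.Vertex, (M ∩ A.linesAt v).card * (N ∩ A.linesAt v).card := by
  rw [← card_product, h.count_pairs (M ×ˢ N)]
  · apply sum_congr rfl
    intro v _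
    rw [← card_product]
    congr 1
    ext p
    rw [mem_filter, mem_product, mem_product, mem_inter, mem_inter]
    tauto
  · intro p hp e
    rw [mem_product] at hp
    rw [e] at hp
    exact (disjoint_left.1 hMN) hp.1 hp.2

theorem sum_pairs [Fintype A.Vertex] :
    ∑ v : A.Vertex, ((A.mult v : ℤ) * (A.mult v - 1)) = (d : ℤ) * (d - 1) := by
  have h1 := h.count_offDiag univ
  rw [card_univ, Fintype.card_fin] at h1
  have h2 : ∀ n : ℕ, ((n * n - n : ℕ) : ℤ) = (n : ℤ) * (n - 1) := by
    intro n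
    rw [Nat.cast_sub (Nat.le_mul_self n)]
    push_cast
    ring
  rw [← h2, h1, Nat.cast_sum]
  apply sum_congr rfl
  intro v _
  rw [univ_inter, card_linesAt, h2]

/-- The basic estimate from the pencil of lines through a vertex `P`: if `g` is a function of the
multiplicity with `g (β + 1) ≥ x β - y β (β - 1)` and `g β ≥ - y β (β - 1)`, sum it up. -/
theorem pencil [Fintype A.Vertex] (P : A.Vertex) (g : ℕ → ℤ) (x y : ℤ)
    (h1 : ∀ β : ℕ, 1 ≤ β → x * β - y * (β * (β - 1)) ≤ g (β + 1))
    (h0 : ∀ β : ℕ, 2 ≤ β → - y * ((β : ℤ) * (β - 1)) ≤ g β) :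
    g (A.mult P) + x * (A.mult P * (d - A.mult P)) - y * ((d - A.mult P) * (d - A.mult P - 1)) ≤
      ∑ v : A.Vertex, g (A.mult v) := by
  classical
  set L := A.linesAt P with hL
  set M := Lᶜ with hM
  have hLc : L.card = A.mult P := card_linesAt P
  have hle : A.mult P ≤ d := by
    rw [← hLc]
    exact (card_le_univ L).trans (by rw [Fintype.card_fin])
  have hMc : (M.card : ℤ) = d - A.mult P := by
    rw [hM, card_compl, Fintype.card_fin, hLc]
    push_cast [Nat.cast_sub hle]
    ring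
  have hsub : ∀ n : ℕ, ((n * n - n : ℕ) : ℤ) = (n : ℤ) * (n - 1) := by
    intro n
    rw [Nat.cast_sub (Nat.le_mul_self n)]
    push_cast
    ring
  have e1 : (A.mult P : ℤ) * (d - A.mult P) =
      ∑ v : A.Vertex, ((L ∩ A.linesAt v).card : ℤ) * (M ∩ A.linesAt v).card := by
    have := h.count_product L M disjoint_compl_right
    rw [← hMc, ← hLc]
    exact_mod_cast this
  have e2 : ((d : ℤ) - A.mult P) * (d - A.mult P - 1) =
      ∑ v : A.Vertex, ((M ∩ A.linesAt v).card : ℤ) * ((M ∩ A.linesAt v).card - 1) := by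
    have := h.count_offDiag M
    rw [← hMc, ← hsub, this, Nat.cast_sum]
    apply sum_congr rfl
    intro v _
    rw [hsub]
  have hsplit : ∀ v : A.Vertex, (L ∩ A.linesAt v).card + (M ∩ A.linesAt v).card = A.mult v := by
    intro v
    rw [← card_linesAt v, inter_comm L, inter_comm M]
    have e : A.linesAt v ∩ M = A.linesAt v \ L := by
      ext x
      rw [mem_inter, mem_sdiff, hM, mem_compl]
    rw [e]
    exact card_inter_add_card_sdiff _ _
  have hP : (M ∩ A.linesAt P).card = 0 := by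
    rw [card_eq_zero, ← hL, hM]
    ext x
    rw [mem_inter, mem_compl]
    simp
  have hone : ∀ v : A.Vertex, v ≠ P → (L ∩ A.linesAt v).card ≤ 1 := by
    intro v hv
    rw [card_le_one]
    intro a ha b hb
    by_contra hab
    rw [mem_inter, hL, mem_linesAt, mem_linesAt] at ha hb
    exact hv (h.meet_unique hab ha.2 hb.2 ha.1 hb.1)
  have hv : ∀ v ∈ univ.erase P, x * (((L ∩ A.linesAt v).card : ℤ) * (M ∩ A.linesAt v).card) -
      y * (((M ∩ A.linesAt v).card : ℤ) * ((M ∩ A.linesAt v).card - 1)) ≤ g (A.mult v) := by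
    intro v hv
    have h2 := hone v (ne_of_mem_erase hv)
    have h3 := hsplit v
    have h4 := h.two_le v
    rcases Nat.le_one_iff_eq_zero_or_eq_one.1 h2 with h5 | h5
    · rw [h5, zero_add] at h3
      rw [h5, h3]
      have := h0 (A.mult v) h4
      push_cast
      linarith
    · rw [h5] at h3
      rw [h5, ← h3, add_comm]
      have := h1 (M ∩ A.linesAt v).card (by omega)
      push_cast
      linarith
  have hsum := sum_le_sum hv
  rw [sum_sub_distrib, ← mul_sum, ← mul_sum] at hsum
  have f1 : ∑ v ∈ univ.erase P, ((L ∩ A.linesAt v).card : ℤ) * (M ∩ A.linesAt v).card =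
      (A.mult P : ℤ) * (d - A.mult P) := by
    rw [e1, ← add_sum_erase _ _ (mem_univ P), hP]
    simp
  have f2 : ∑ v ∈ univ.erase P, ((M ∩ A.linesAt v).card : ℤ) * ((M ∩ A.linesAt v).card - 1) =
      ((d : ℤ) - A.mult P) * (d - A.mult P - 1) := by
    rw [e2, ← add_sum_erase _ _ (mem_univ P), hP]
    simp
  rw [f1, f2] at hsum
  rw [← add_sum_erase _ _ (mem_univ P)]
  linarith

theorem pencil_W8 [Fintype A.Vertex] (P : A.Vertex) :
    W8 (A.mult P) + 8 * (A.mult P * (d - A.mult P)) -
      5 * (((d : ℤ) - A.mult P) * (d - A.mult P - 1)) ≤ ∑ v : A.Vertex, W8 (A.mult v) :=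
  h.pencil P W8 8 5 W8_ge_one W8_ge_zero

theorem pencil_sub_one [Fintype A.Vertex] (P : A.Vertex) :
    (A.mult P : ℤ) - 1 + A.mult P * (d - A.mult P) ≤
      ∑ v : A.Vertex, ((A.mult v : ℤ) - 1) := by
  have := h.pencil P (fun k => (k : ℤ) - 1) 1 0 (by intro β _; push_cast; linarith)
    (by
      intro β hβ
      have : (2 : ℤ) ≤ β := by exact_mod_cast hβ
      linarith)
  linarith

end IsPseudolineArrangement

end FlagSystem

end Pool.Agent.Helper18.PL
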