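import Pool.Agent.Helper18.PL.Count

/-!
# Counting faces and double points
-/

namespace Pool.Agent.Helper18.PL

open Finset

namespace FlagSystem

variable {d : ℕ} {A : FlagSystem d}

theorem face_s0 (φ : A.Flag) : A.face (A.s0 φ) = A.face φ := by
  symm
  apply Quot.sound
  exact Or.inl rfl

theorem face_s1 (φ : A.Flag) : A.face (A.s1 φ) = A.face φ := by
  symm
  apply Quot.sound
  exact Or.inr rfl

/-- Rotation about a face. -/
def fturn (A : FlagSystem d) (φ : A.Flag) : A.Flag := A.s0 (A.s1 φ)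

theorem face_iter (i : ℕ) (φ : A.Flag) : A.face (A.fturn^[i] φ) = A.face φ := by
  induction i generalizing φ with
  | zero => rfl
  | succ n ih => rw [Function.iterate_succ_apply, ih, fturn, face_s0, face_s1]

namespace IsPseudolineArrangement

variable (h : A.IsPseudolineArrangement)

include h

theorem tri_iff (φ : A.Flag) :
    A.Tri φ ↔ A.s0 (A.s1 (A.s0 φ)) = A.s1 (A.s0 (A.s1 φ)) := by
  unfold Tri
  constructor
  · intro e
    have e1 := congrArg A.s0 e
    rw [h.s0_s0] at e1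
    have e2 := congrArg A.s1 e1
    rw [h.s1_s1] at e2
    have e3 := congrArg A.s0 e2
    rw [h.s0_s0] at e3
    rw [← e3]
  · intro e
    rw [← e, h.s0_s0, h.s1_s1, h.s0_s0]

theorem tri_s0 {φ : A.Flag} (e : A.Tri φ) : A.Tri (A.s0 φ) := by
  rw [h.tri_iff] at e ⊢
  rw [h.s0_s0, e, h.s1_s1]

theorem tri_s1 {φ : A.Flag} (e : A.Tri φ) : A.Tri (A.s1 φ) := by
  rw [h.tri_iff] at e ⊢
  rw [h.s1_s1, ← e, h.s0_s0]

theorem tri_s0_iff (φ : A.Flag) : A.Tri (A.s0 φ) ↔ A.Tri φ :=
  ⟨fun e => by have := h.tri_s0 e; rwa [h.s0_s0] at this, fun e => h.tri_s0 e⟩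

theorem tri_s1_iff (φ : A.Flag) : A.Tri (A.s1 φ) ↔ A.Tri φ :=
  ⟨fun e => by have := h.tri_s1 e; rwa [h.s1_s1] at this, fun e => h.tri_s1 e⟩

theorem tri_of_face {φ ψ : A.Flag} (e : A.face φ = A.face ψ) (t : A.Tri φ) : A.Tri ψ :=
  quot_closed A.s0 A.s1 h.s0_s0 h.s1_s1 A.Tri (fun _ => h.tri_s0) (fun _ => h.tri_s1) e t

open Classical in
/-- If the first `m` flags obtained by rotation about the face are different, then the face has at
least `2 m` flags. -/
theorem le_card_face [Fintype A.Flag] (φ : A.Flag) (m : ℕ)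
    (hm : ∀ i j, i < j → j < m → A.fturn^[i] φ ≠ A.fturn^[j] φ) :
    2 * m ≤ (univ.filter fun ψ : A.Flag => A.face ψ = A.face φ).card := by
  have hr : ∀ (k : ℕ) (x : A.Flag), A.fturn^[k] x ≠ A.s1 x := fun k x =>
    iter_ne A.s0 A.s1 h.s0_s0 h.s1_s1 h.s0_ne h.s1_ne k x
  have hr2 : ∀ i j, A.fturn^[i] φ ≠ A.s1 (A.fturn^[j] φ) := by
    intro i j e
    rcases le_total j i with hij | hij
    · obtain ⟨k, rfl⟩ := Nat.exists_eq_add_of_le hij
      rw [Nat.add_comm, Function.iterate_add_apply] at e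
      exact hr k _ e
    · obtain ⟨k, rfl⟩ := Nat.exists_eq_add_of_le hij
      have e' := congrArg A.s1 e
      rw [h.s1_s1, Nat.add_comm, Function.iterate_add_apply] at e'
      exact hr k _ e'.symm
  have hinj : ∀ i j, i < m → j < m → A.fturn^[i] φ = A.fturn^[j] φ → i = j := by
    intro i j hi hj e
    rcases lt_trichotomy i j with hij | hij | hij
    · exact absurd e (hm i j hij hj)
    · exact hij
    · exact absurd e.symm (hm j i hij hi)
  have hinj1 : ∀ x y : A.Flag, A.s1 x = A.s1 y → x = y := by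
    intro x y e
    rw [← h.s1_s1 x, e, h.s1_s1]
  have h1 : ((range m).image fun i => A.fturn^[i] φ).card = m := by
    rw [card_image_of_injOn, card_range]
    intro i hi j hj e
    exact hinj i j (mem_range.1 hi) (mem_range.1 hj) e
  have h2 : ((range m).image fun i => A.s1 (A.fturn^[i] φ)).card = m := by
    rw [card_image_of_injOn, card_range]
    intro i hi j hj e
    exact hinj i j (mem_range.1 hi) (mem_range.1 hj) (hinj1 _ _ e)
  have h3 : Disjoint ((range m).image fun i => A.fturn^[i] φ)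
      ((range m).image fun i => A.s1 (A.fturn^[i] φ)) := by
    rw [disjoint_left]
    intro x hx hx'
    rw [mem_image] at hx hx'
    obtain ⟨i, -, rfl⟩ := hx
    obtain ⟨j, -, e⟩ := hx'
    exact hr2 i j e.symm
  have h4 := card_union_of_disjoint h3
  have h5 : ((range m).image fun i => A.fturn^[i] φ) ∪
      ((range m).image fun i => A.s1 (A.fturn^[i] φ)) ⊆
      univ.filter fun ψ : A.Flag => A.face ψ = A.face φ := by
    intro x hx
    rw [mem_union, mem_image, mem_image] at hx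
    rw [mem_filter]
    refine ⟨mem_univ _, ?_⟩
    rcases hx with ⟨i, -, rfl⟩ | ⟨i, -, rfl⟩
    · exact face_iter i φ
    · rw [face_s1]; exact face_iter i φ
  have h6 := card_le_card h5
  omega

variable (hmax : ∀ v, A.mult v + 2 ≤ d)

include hmax

theorem fturn_ne (φ : A.Flag) : A.fturn φ ≠ φ := by
  intro e
  apply h.s0_ne_s1 hmax φ
  have := congrArg A.s0 e
  rw [fturn, h.s0_s0] at this
  exact this.symm

theorem fturn2_ne (φ : A.Flag) : A.fturn (A.fturn φ) ≠ φ := h.no_digon hmax φ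

open Classical in
theorem face_weight [Fintype A.Flag] (F : A.Face) :
    24 ≤ ∑ ψ ∈ univ.filter (fun ψ : A.Flag => A.face ψ = F), if A.Tri ψ then 4 else 3 := by
  obtain ⟨φ, rfl⟩ := Quot.exists_rep F
  change 24 ≤ ∑ ψ ∈ univ.filter (fun ψ : A.Flag => A.face ψ = A.face φ), if A.Tri ψ then 4 else 3
  by_cases hT : A.Tri φ
  · have h1 : ∀ ψ ∈ univ.filter (fun ψ : A.Flag => A.face ψ = A.face φ),
        (if A.Tri ψ then 4 else 3) = 4 := by
      intro ψ hψ
      rw [mem_filter] at hψ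
      rw [if_pos (h.tri_of_face hψ.2.symm hT)]
    rw [sum_congr rfl h1, sum_const, smul_eq_mul]
    have h2 := h.le_card_face φ 3 ?_
    · omega
    · intro i j hij hj e
      have hj' : j = 1 ∨ j = 2 := by omega
      rcases hj' with rfl | rfl
      · have hi : i = 0 := by omega
        subst hi
        exact h.fturn_ne hmax φ e.symm
      · have hi : i = 0 ∨ i = 1 := by omega
        rcases hi with rfl | rfl
        · exact h.fturn2_ne hmax φ e.symm
        · exact h.fturn_ne hmax (A.fturn φ) e.symm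
  · have h1 : ∀ ψ ∈ univ.filter (fun ψ : A.Flag => A.face ψ = A.face φ),
        (if A.Tri ψ then 4 else 3) = 3 := by
      intro ψ hψ
      rw [mem_filter] at hψ
      rw [if_neg fun e => hT (h.tri_of_face hψ.2 e)]
    rw [sum_congr rfl h1, sum_const, smul_eq_mul]
    have h2 := h.le_card_face φ 4 ?_
    · omega
    · intro i j hij hj e
      have hj' : j = 1 ∨ j = 2 ∨ j = 3 := by omega
      rcases hj' with rfl | rfl | rfl
      · have hi : i = 0 := by omega
        subst hi
        exact h.fturn_ne hmax φ e.symm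
      · have hi : i = 0 ∨ i = 1 := by omega
        rcases hi with rfl | rfl
        · exact h.fturn2_ne hmax φ e.symm
        · exact h.fturn_ne hmax (A.fturn φ) e.symm
      · have hi : i = 0 ∨ i = 1 ∨ i = 2 := by omega
        rcases hi with rfl | rfl | rfl
        · exact hT e.symm
        · exact h.fturn2_ne hmax (A.fturn φ) e.symm
        · exact h.fturn_ne hmax (A.fturn (A.fturn φ)) e.symm

open Classical in
/-- `24 · #faces ≤ 4 · #(flags in triangles) + 3 · #(other flags)`. -/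
theorem card_face_le [Fintype A.Flag] :
    24 * Nat.card A.Face ≤ 4 * (univ.filter fun ψ : A.Flag => A.Tri ψ).card +
      3 * (univ.filter fun ψ : A.Flag => ¬ A.Tri ψ).card := by
  have := h.finite_face
  have := Fintype.ofFinite A.Face
  have h1 : ∑ F : A.Face, ∑ ψ ∈ univ.filter (fun ψ : A.Flag => A.face ψ = F),
      (if A.Tri ψ then 4 else 3) = ∑ ψ : A.Flag, if A.Tri ψ then 4 else 3 :=
    sum_fiberwise _ _ _
  have h2 : ∑ _F : A.Face, 24 ≤ ∑ F : A.Face, ∑ ψ ∈ univ.filter (fun ψ : A.Flag => A.face ψ = F),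
      (if A.Tri ψ then 4 else 3) := sum_le_sum fun F _ => h.face_weight hmax F
  rw [h1, sum_const, card_univ, smul_eq_mul, sum_ite, sum_const, sum_const, smul_eq_mul,
    smul_eq_mul] at h2
  rw [Nat.card_eq_fintype_card]
  linarith

open Classical in
/-- Counting the flags at double points. -/
theorem card_double_le [Fintype A.Flag] :
    3 * (univ.filter fun ψ : A.Flag => A.mult (A.vertex ψ) = 2).card ≤
      (univ.filter fun ψ : A.Flag => A.Tri ψ).card +
      6 * (univ.filter fun ψ : A.Flag => ¬ A.Tri ψ).card := by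
  set D := univ.filter fun ψ : A.Flag => A.mult (A.vertex ψ) = 2 with hD
  set D1 := univ.filter fun ψ : A.Flag => A.mult (A.vertex ψ) = 2 ∧ A.Tri ψ ∧
    A.mult (A.vertex (A.s0 ψ)) ≠ 2 with hD1
  set D2 := univ.filter fun ψ : A.Flag => A.mult (A.vertex ψ) = 2 ∧ A.Tri ψ ∧
    A.mult (A.vertex (A.s0 ψ)) = 2 with hD2
  set T := univ.filter fun ψ : A.Flag => A.Tri ψ with hT
  set N := univ.filter fun ψ : A.Flag => ¬ A.Tri ψ with hN
  have h0 : D ⊆ D1 ∪ (D2 ∪ N) := by
    intro ψ hψ
    rw [hD, mem_filter] at hψ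
    rw [mem_union, mem_union, hD1, hD2, hN, mem_filter, mem_filter, mem_filter]
    by_cases h1 : A.Tri ψ
    · by_cases h2 : A.mult (A.vertex (A.s0 ψ)) = 2
      · exact Or.inr (Or.inl ⟨mem_univ _, hψ.2, h1, h2⟩)
      · exact Or.inl ⟨mem_univ _, hψ.2, h1, h2⟩
    · exact Or.inr (Or.inr ⟨mem_univ _, h1⟩)
  have h0' := (card_le_card h0).trans ((card_union_le _ _).trans
    (Nat.add_le_add_left (card_union_le _ _) _))
  have h2 : D2.card ≤ N.card := by
    apply card_le_card_of_injOn A.s2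
    · intro ψ hψ
      rw [mem_coe, hD2, mem_filter] at hψ
      rw [mem_coe, hN, mem_filter]
      exact ⟨mem_univ _, h.not_tri hmax hψ.2.1 hψ.2.2.2 hψ.2.2.1⟩
    · intro x _ y _ e
      rw [← h.s2_s2 x, e, h.s2_s2]
  -- the rotation from an edge to the next one
  set ρ : A.Flag → A.Flag := fun ψ => A.s1 (A.s0 ψ) with hρ
  have hρi : Function.Injective ρ := by
    intro x y e
    have e1 := congrArg A.s1 e
    simp only [hρ, h.s1_s1] at e1
    rw [← h.s0_s0 x, e1, h.s0_s0]
  have hρv : ∀ ψ, A.vertex (ρ ψ) = A.vertex (A.s0 ψ) := fun ψ => vertex_s1 _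
  have hρ3 : ∀ ψ, A.Tri ψ → A.s0 (ρ (ρ ψ)) = A.s1 ψ := by
    intro ψ hψ
    rw [h.tri_iff] at hψ
    have e1 := congrArg A.s1 hψ
    rw [h.s1_s1] at e1
    change A.s0 (A.s1 (A.s0 (A.s1 (A.s0 ψ)))) = A.s1 ψ
    rw [e1, h.s0_s0]
  have hρT : ∀ ψ, A.Tri ψ → A.Tri (ρ ψ) := fun ψ hψ => h.tri_s1 (h.tri_s0 hψ)
  have m1 : ∀ ψ ∈ D1, A.mult (A.vertex ψ) = 2 ∧ A.Tri ψ ∧ A.mult (A.vertex (A.s0 ψ)) ≠ 2 := by
    intro ψ hψ
    rw [hD1, mem_filter] at hψ
    exact hψ.2
  have d1 : Disjoint D1 (D1.image ρ) := by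
    rw [disjoint_left]
    intro x hx hx'
    rw [mem_image] at hx'
    obtain ⟨y, hy, rfl⟩ := hx'
    have e1 := (m1 _ hx).1
    rw [hρv] at e1
    exact (m1 _ hy).2.2 e1
  have d2 : Disjoint D1 (D1.image fun ψ => ρ (ρ ψ)) := by
    rw [disjoint_left]
    intro x hx hx'
    rw [mem_image] at hx'
    obtain ⟨y, hy, rfl⟩ := hx'
    have e1 := (m1 _ hx).2.2
    rw [hρ3 y (m1 _ hy).2.1, vertex_s1] at e1
    exact e1 (m1 _ hy).1
  have d3 : Disjoint (D1.image ρ) (D1.image fun ψ => ρ (ρ ψ)) := by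
    rw [disjoint_left]
    intro x hx hx'
    rw [mem_image] at hx hx'
    obtain ⟨y, hy, rfl⟩ := hx
    obtain ⟨z, hz, e⟩ := hx'
    have e' := hρi e
    rw [← e'] at hy
    have e1 := (m1 _ hy).1
    rw [hρv] at e1
    exact (m1 _ hz).2.2 e1
  have c1 : (D1.image ρ).card = D1.card := card_image_of_injective _ hρi
  have c2 : (D1.image fun ψ => ρ (ρ ψ)).card = D1.card :=
    card_image_of_injective _ (hρi.comp hρi)
  have d4 : Disjoint (D1 ∪ D1.image ρ) (D1.image fun ψ => ρ (ρ ψ)) := by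
    rw [disjoint_union_left]
    exact ⟨d2, d3⟩
  have hsub : (D1 ∪ D1.image ρ) ∪ (D1.image fun ψ => ρ (ρ ψ)) ⊆ T := by
    intro x hx
    rw [mem_union, mem_union, mem_image, mem_image] at hx
    rw [hT, mem_filter]
    refine ⟨mem_univ _, ?_⟩
    rcases hx with (hx | ⟨y, hy, rfl⟩) | ⟨y, hy, rfl⟩
    · exact (m1 _ hx).2.1
    · exact hρT _ (m1 _ hy).2.1
    · exact hρT _ (hρT _ (m1 _ hy).2.1)
  have h3 := card_le_card hsub
  rw [card_union_of_disjoint d4, card_union_of_disjoint d1, c1, c2] at h3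
  omega

/-- The two inequalities on the numbers of vertices, edges, faces. -/
theorem euler_ineq [Fintype A.Vertex] :
    (∑ v : A.Vertex, A.mult v) + 3 ≤ 3 * Fintype.card A.Vertex ∧
    6 * A.t 2 + 10 * (∑ v : A.Vertex, A.mult v) + 30 ≤
      (∑ v : A.Vertex, A.mult v) + 30 * Fintype.card A.Vertex := by
  classical
  have := h.finite
  have := Fintype.ofFinite A.Flag
  have e1 := h.card_flag_edge
  have e2 := h.card_flag_vertex
  have e3 := h.card_face_le hmax
  have e4 := h.card_double_le hmax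
  have e5 := h.card_double
  have e6 := h.euler
  rw [Nat.card_eq_fintype_card] at e1 e2
  rw [Nat.card_eq_fintype_card (α := A.Vertex)] at e6
  have e7 : (univ.filter fun ψ : A.Flag => A.Tri ψ).card +
      (univ.filter fun ψ : A.Flag => ¬ A.Tri ψ).card = Fintype.card A.Flag := by
    rw [card_filter_add_card_filter_not, card_univ]
  rw [e5] at e4
  constructor
  · omega
  · omega

end IsPseudolineArrangement

end FlagSystem

end Pool.Agent.Helper18.PL
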